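import Mathlib
import Pool.Agent.V11104.SXDefs
import Pool.Agent.V11104.SX4

/-!
# MP_38292b_an: the additive extension of an LU function on a metrizable Choquet simplex need not
be LU
-/

set_option autoImplicit false

namespace Pool.Agent.Results.MP_38292b_an.AdditiveNotLU

open Pool.Agent.V11104.SX

/-- There are a metrizable Choquet simplex `K` (in the locally convex space `ℝ^ℕ × ℝ^ℕ`, the two
factors being indexed by the finite subsets of `ℕ`) and a function `f` with values in
`{1, 2, …, ∞}`, of Young class LU on the set of extreme points of `K`, whose extension by the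
additive rule is not of Young class LU on `K`. -/
theorem result : ∃ K : Set ((Finset ℕ → ℝ) × (Finset ℕ → ℝ)), IsMetrizableChoquetSimplex K ∧
    ∃ f : (Finset ℕ → ℝ) × (Finset ℕ → ℝ) → ℕ∞, (∀ y, 1 ≤ f y) ∧
      IsLU (fun y : K.extremePoints ℝ => (((f y : ℕ∞) : ENNReal) : EReal)) ∧
      ¬ IsLU (fun x : K => (((addExt K f x : ℕ∞) : ENNReal) : EReal)) :=
  ⟨K, simplex_K, fval, one_le_fval, isLU_fval, not_isLU_addExt⟩

end Pool.Agent.Results.MP_38292b_an.AdditiveNotLU
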